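import Pool.Agent.V11110.DT4

/-!
For every `d ≥ 3` the space `X_d` of domino tilings of `ℝ^d` contains a nonempty strongly
irreducible subshift.
-/

open V11110.DT

namespace Pool.Agent.Results.MP_073e7c_an.StronglyIrreducible

/-- A subshift: a closed subset of the full shift (product topology, discrete finite alphabet),
invariant under all translations `(σ^u x)_v = x_{u+v}`. -/
def IsSubshift {d : ℕ} (X : Set ((Fin d → ℤ) → Letter d)) : Prop :=
  IsClosed X ∧ ∀ u : Fin d → ℤ, ∀ x ∈ X, (fun v => x (u + v)) ∈ X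

/-- Strong irreducibility: there is `k` such that for all `x, y ∈ X` and all `A, B ⊆ ℤ^d` with
sup-norm distance at least `k`, some `z ∈ X` equals `x` on `A` and `y` on `B`. -/
def IsStronglyIrreducible {d : ℕ} (X : Set ((Fin d → ℤ) → Letter d)) : Prop :=
  ∃ k : ℕ, ∀ x ∈ X, ∀ y ∈ X, ∀ A B : Set (Fin d → ℤ),
    (∀ a ∈ A, ∀ b ∈ B, ∃ i, (k : ℤ) ≤ |a i - b i|) →
      ∃ z ∈ X, (∀ a ∈ A, z a = x a) ∧ ∀ b ∈ B, z b = y b

variable {n : ℕ}

lemma finite_conf (v : V n) : {w : V n | Conf v w}.Finite := by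
  have : {w : V n | Conf v w} ⊆ (fun t : ℤ × ℤ × ℤ => v + P t.1 t.2.1 t.2.2) ''
      (Set.Icc (-304) 304 ×ˢ Set.Icc (-304) 304 ×ˢ Set.Icc (-304) 304) := by
    rintro w ⟨-, a, b, c, rfl, h⟩
    refine ⟨(a, b, c), ?_, rfl⟩
    rw [Set.mem_prod, Set.mem_prod, Set.mem_Icc, Set.mem_Icc, Set.mem_Icc]
    simp only
    rcases h with ⟨h1, h2, h3⟩ | ⟨h1, h2, h3⟩
    · rw [abs_le] at h1 h2
      rw [abs_lt] at h3
      omega
    · rw [abs_lt] at h3
      omega
  exact (Set.Finite.image _ ((Set.finite_Icc _ _).prod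
    ((Set.finite_Icc _ _).prod (Set.finite_Icc _ _)))).subset this

lemma isClosed_adm : IsClosed {p : (V n → Bool) × (V n → Bool) | Adm p.1 p.2} := by
  have e : {p : (V n → Bool) × (V n → Bool) | Adm p.1 p.2} =
      (⋂ v : V n, {p | p.2 v = false → p.1 v = p.1 (v + P 0 0 (-1))}) ∩
      ((⋂ v : V n, ⋂ w : V n, {p | Conf v w → ¬ (p.2 v = true ∧ p.2 w = true)}) ∩
      ⋂ v : V n, ({p | p.2 v = true} ∪ ⋃ w ∈ {w : V n | Conf v w}, {p | p.2 w = true})) := by
    ext p
    simp only [Set.mem_ofPred_eq, Set.mem_inter_iff, Set.mem_iInter, Set.mem_union, Set.mem_iUnion]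
    constructor
    · intro h
      refine ⟨h.flip, h.indep, ?_⟩
      intro v
      rcases Bool.eq_false_or_eq_true (p.2 v) with h1 | h1
      · exact Or.inl h1
      · obtain ⟨w, h2, h3⟩ := h.maxl v h1
        exact Or.inr ⟨w, h2, h3⟩
    · rintro ⟨h1, h2, h3⟩
      refine ⟨h1, h2, ?_⟩
      intro v hv
      rcases h3 v with h | ⟨w, h4, h5⟩
      · rw [h] at hv
        exact absurd hv (by decide)
      · exact ⟨w, h4, h5⟩
  rw [e]
  have c1 : ∀ v : V n, Continuous fun p : (V n → Bool) × (V n → Bool) => p.1 v := fun v =>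
    (continuous_apply v).comp continuous_fst
  have c2 : ∀ v : V n, Continuous fun p : (V n → Bool) × (V n → Bool) => p.2 v := fun v =>
    (continuous_apply v).comp continuous_snd
  refine IsClosed.inter (isClosed_iInter fun v => ?_) (IsClosed.inter
    (isClosed_iInter fun v => isClosed_iInter fun w => ?_) (isClosed_iInter fun v => ?_))
  · exact (isClosed_discrete {t : Bool × Bool × Bool | t.1 = false → t.2.1 = t.2.2}).preimage
      ((c2 v).prodMk ((c1 v).prodMk (c1 (v + P 0 0 (-1)))))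
  · exact (isClosed_discrete {t : Bool × Bool | Conf v w → ¬ (t.1 = true ∧ t.2 = true)}).preimage
      ((c2 v).prodMk (c2 w))
  · refine IsClosed.union ((isClosed_discrete {t : Bool | t = true}).preimage (c2 v)) ?_
    exact (finite_conf v).isClosed_biUnion fun w _ =>
      (isClosed_discrete {t : Bool | t = true}).preimage (c2 w)

/-- a function of finitely many bits is continuous -/
lemma continuous_of_finite {ι β : Type*} [TopologicalSpace β] (f : (ι → Bool) → β) (s : Finset ι)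
    (h : ∀ m m' : ι → Bool, (∀ i ∈ s, m' i = m i) → f m' = f m) : Continuous f := by
  apply IsLocallyConstant.continuous
  rw [IsLocallyConstant.iff_exists_open]
  intro m
  refine ⟨⋂ i ∈ s, {m' : ι → Bool | m' i = m i}, ?_, ?_, ?_⟩
  · apply isOpen_biInter_finset
    intro i _
    exact IsOpen.preimage (f := fun m' : ι → Bool => m' i) (continuous_apply i)
      (isOpen_discrete {t : Bool | t = m i})
  · simp
  · intro m' hm'
    simp only [Set.mem_iInter, Set.mem_ofPred_eq] at hm'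
    exact h m m' hm'

lemma continuous_TT : Continuous fun m : V n → Bool => TT (fld m) := by
  classical
  apply continuous_pi
  intro v
  refine continuous_of_finite _ (((Finset.Icc (-12 : ℤ) 12) ×ˢ (Finset.Icc (-12 : ℤ) 12) ×ˢ
    (Finset.Icc (-12 : ℤ) 12)).image fun t => v + P t.1 t.2.1 t.2.2) ?_
  intro m m' h
  apply TT_fld_congr
  intro a b c ha hb hc
  apply h
  rw [Finset.mem_image]
  refine ⟨(a, b, c), ?_, rfl⟩
  rw [Finset.mem_product, Finset.mem_product, Finset.mem_Icc, Finset.mem_Icc, Finset.mem_Icc]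
  exact ⟨abs_le.1 ha, abs_le.1 hb, abs_le.1 hc⟩

/-- the subshift -/
def XX (n : ℕ) : Set ((Fin (n + 3) → ℤ) → Letter (n + 3)) :=
  {x | ∃ m S : V n → Bool, Adm m S ∧ x = TT (fld m)}

theorem isClosed_XX : IsClosed (XX n) := by
  have hK : IsCompact {p : (V n → Bool) × (V n → Bool) | Adm p.1 p.2} := isClosed_adm.isCompact
  have : XX n = (fun p : (V n → Bool) × (V n → Bool) => TT (fld p.1)) '' {p | Adm p.1 p.2} := by
    ext x
    constructor
    · rintro ⟨m, S, h, rfl⟩
      exact ⟨(m, S), h, rfl⟩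
    · rintro ⟨⟨m, S⟩, h, rfl⟩
      exact ⟨m, S, h, rfl⟩
  rw [this]
  exact (hK.image (continuous_TT.comp continuous_fst)).isClosed

/-- **Main result.**  For every `d ≥ 3` the space of domino tilings of `ℝ^d` contains a nonempty
strongly irreducible subshift. -/
theorem result (d : ℕ) (hd : 3 ≤ d) : ∃ X : Set ((Fin d → ℤ) → Letter d),
    X ⊆ DominoTilings d ∧ X.Nonempty ∧ IsSubshift X ∧ IsStronglyIrreducible X := by
  obtain ⟨n, rfl⟩ : ∃ n, d = n + 3 := ⟨d - 3, by omega⟩
  refine ⟨XX n, ?_, ?_, ⟨isClosed_XX, ?_⟩, 3000, ?_⟩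
  · rintro x ⟨m, S, h, rfl⟩
    exact TT_mem (fld_good h)
  · obtain ⟨S, -, h1, h2⟩ := exists_maximal (∅ : Set (V n)) (by simp)
    exact ⟨_, fun _ => false, S, ⟨fun _ _ => rfl, h1, h2⟩, rfl⟩
  · rintro u x ⟨m, S, h, rfl⟩
    refine ⟨shm u m, _, adm_shm h u, ?_⟩
    funext v
    exact (TT_shm u m v).symm
  · rintro x ⟨m₁, S₁, h₁, rfl⟩ y ⟨m₂, S₂, h₂, rfl⟩ A B hAB
    obtain ⟨m, S, h, hA, hB⟩ := glue h₁ h₂ A B (by simpa using hAB)
    refine ⟨_, ⟨m, S, h, rfl⟩, ?_, ?_⟩
    · intro a ha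
      apply TT_fld_congr
      intro x y z hx hy hz
      apply hA
      refine ⟨-x, -y, -z, by simpa using hx, by simpa using hy, by simpa using hz, ?_⟩
      rw [vP]
      simpa [P_zero] using ha
    · intro b hb
      apply TT_fld_congr
      intro x y z hx hy hz
      apply hB
      refine ⟨-x, -y, -z, by simpa using hx, by simpa using hy, by simpa using hz, ?_⟩
      rw [vP]
      simpa [P_zero] using hb

end Pool.Agent.Results.MP_073e7c_an.StronglyIrreducible
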